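import Pool.Agent.H947R2.TP.Stubs

/-! Task P2 (helper8): properties of the body. -/

set_option autoImplicit false

open MeasureTheory Filter Topology Set
open scoped ENNReal

namespace H947TP

theorem P2_scale {D : ℕ} (x y : Fin D → ℝ) (a c : ℝ) :
    (fun i => 2 * (a • x + c • y) i) = a • (fun i => 2 * x i) + c • (fun i => 2 * y i) := by
  funext i
  simp only [Pi.add_apply, Pi.smul_apply, smul_eq_mul]
  ring

theorem P2 (h1 : St_P1) : St_P2 := by
  intro D n b δ ε hδ hδ1 hε hD hn
  have hP := fun k => h1 D n b δ k hδ hδ1 hD hn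
  have hcont : ∀ k, Continuous (fun x : Fin D → ℝ => Nk b δ ε k (fun i => 2 * x i)) := by
    intro k
    obtain ⟨-, -, -, -, hc, -⟩ := hP k
    have h2 : Continuous (fun x : Fin D → ℝ => (fun i => 2 * x i : Fin D → ℝ)) :=
      continuous_pi fun i => continuous_const.mul (continuous_apply i)
    unfold Nk
    exact ((continuous_const.mul (continuous_apply k)).abs).add
      (continuous_const.mul (hc.comp h2))
  have hbd : ∀ x ∈ body b δ ε, ∀ k, |2 * x k| ≤ 1 := by
    intro x hx k
    have h := hx k
    unfold Nk at h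
    have h0 := (hP k).1 (fun i => 2 * x i)
    have := mul_nonneg hε.le h0
    linarith
  have hclosed : IsClosed (body b δ ε) := by
    have : body b δ ε = ⋂ k, {x : Fin D → ℝ | Nk b δ ε k (fun i => 2 * x i) ≤ 1} := by
      ext x
      simp only [body, mem_iInter]
      rfl
    rw [this]
    exact isClosed_iInter fun k => isClosed_le (hcont k) continuous_const
  have hcomp : IsCompact (body b δ ε) := by
    refine Metric.isCompact_of_isClosed_isBounded hclosed ?_
    refine Metric.isBounded_closedBall.subset (s := body b δ ε) (t := Metric.closedBall 0 1) ?_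
    intro x hx
    rw [mem_closedBall_zero_iff, pi_norm_le_iff_of_nonneg zero_le_one]
    intro k
    have := hbd x hx k
    rw [abs_mul, abs_two] at this
    rw [Real.norm_eq_abs]
    have h0 := abs_nonneg (x k)
    linarith
  have hint : (interior (body b δ ε)).Nonempty := by
    refine ⟨0, ?_⟩
    have hopen : IsOpen {x : Fin D → ℝ | ∀ k, Nk b δ ε k (fun i => 2 * x i) < 1} := by
      have : {x : Fin D → ℝ | ∀ k, Nk b δ ε k (fun i => 2 * x i) < 1} =
          ⋂ k, {x : Fin D → ℝ | Nk b δ ε k (fun i => 2 * x i) < 1} := by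
        ext x
        simp only [mem_iInter]
        rfl
      rw [this]
      exact isOpen_iInter_of_finite fun k => isOpen_lt (hcont k) continuous_const
    have hsub : {x : Fin D → ℝ | ∀ k, Nk b δ ε k (fun i => 2 * x i) < 1} ⊆ body b δ ε :=
      fun x hx k => le_of_lt (hx k)
    refine interior_maximal hsub hopen ?_
    intro k
    obtain ⟨-, -, -, h0, -⟩ := hP k
    have e : (fun i => 2 * (0 : Fin D → ℝ) i) = (0 : Fin D → ℝ) := by
      funext i
      simp
    rw [e]
    unfold Nk
    rw [h0]
    simp
  refine ⟨?_, hcomp, hint, ?_, ?_, hcomp.measure_lt_top.ne⟩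
  · intro x hx y hy a c ha hc hac k
    obtain ⟨-, -, -, -, -, hcv, -⟩ := hP k
    have h2 := hcv.2 (mem_univ (fun i => 2 * x i)) (mem_univ (fun i => 2 * y i)) ha hc hac
    have hx' := hx k
    have hy' := hy k
    rw [P2_scale]
    unfold Nk at hx' hy' ⊢
    have h3 : |(a • (fun i => 2 * x i) + c • (fun i => 2 * y i) : Fin D → ℝ) k| ≤
        a * |2 * x k| + c * |2 * y k| := by
      simp only [Pi.add_apply, Pi.smul_apply, smul_eq_mul]
      refine (abs_add_le _ _).trans ?_
      rw [abs_mul a, abs_mul c, abs_of_nonneg ha, abs_of_nonneg hc]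
    simp only [smul_eq_mul] at h2
    have h4 := mul_le_mul_of_nonneg_left h2 hε.le
    have h5 := mul_le_mul_of_nonneg_left hx' ha
    have h6 := mul_le_mul_of_nonneg_left hy' hc
    nlinarith
  · intro x hx k
    obtain ⟨-, -, hev, -⟩ := hP k
    have e : (fun i => 2 * (-x) i) = -(fun i => 2 * x i) := by
      funext i
      simp only [Pi.neg_apply]
      ring
    have h := hx k
    rw [e]
    unfold Nk at h ⊢
    rw [hev, Pi.neg_apply, abs_neg]
    exact h
  · have h := isOpen_interior.measure_pos volume hint
    exact (lt_of_lt_of_le h (measure_mono interior_subset)).ne'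

end H947TP
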